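import Mathlib
import Pool.Agent.V1181.BDiff
import Pool.Agent.H170R2.PC.Asym

/-!
Random perturbations of a choice of residue classes: counting lemmas.
-/

set_option autoImplicit false

open Finset
open scoped Pointwise

namespace Pool.Agent.V11298.CR

/-- The integers of `[1, N]` in the class `a p + s` modulo `p`. -/
def cl (N : ℕ) (a : (p : ℕ) → ZMod p) (p : ℕ) (s : ℤ) : Finset ℕ :=
  (Icc 1 N).filter fun n => (n : ZMod p) = a p + (s : ZMod p)

/-- A number below `Q ^ 3` has at most two prime factors which are at least `Q`. -/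
theorem two_primes {P : Finset ℕ} {Q : ℕ} (hP : ∀ p ∈ P, p.Prime ∧ Q ≤ p)
    {m : ℤ} (hm : m ≠ 0) (hmQ : |m| < (Q : ℤ) ^ 3) :
    (P.filter fun p : ℕ => (p : ℤ) ∣ m).card ≤ 2 := by
  by_contra hcon
  push Not at hcon
  set F := P.filter fun p : ℕ => (p : ℤ) ∣ m with hF
  have hdvd : ∏ p ∈ F, p ∣ m.natAbs := by
    refine Finset.prod_primes_dvd _ (fun p hp => ?_) (fun p hp => ?_)
    · exact (hP p (mem_filter.1 hp).1).1.prime
    · exact Int.natCast_dvd.1 (mem_filter.1 hp).2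
  have hle : ∏ p ∈ F, p ≤ m.natAbs := Nat.le_of_dvd (Int.natAbs_pos.2 hm) hdvd
  have hQ1 : 0 < Q := by
    rcases Nat.eq_zero_or_pos Q with h | h
    · exfalso
      subst h
      have := abs_nonneg m
      norm_num at hmQ
      omega
    · exact h
  have hpow : Q ^ F.card ≤ ∏ p ∈ F, p := by
    rw [← Finset.prod_const]
    exact Finset.prod_le_prod' fun p hp => (hP p (mem_filter.1 hp).1).2
  have h3 : Q ^ 3 ≤ Q ^ F.card := Nat.pow_le_pow_right hQ1 hcon
  have h4 : Q ^ 3 ≤ m.natAbs := h3.trans (hpow.trans hle)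
  have h5 : ((Q ^ 3 : ℕ) : ℤ) ≤ |m| := by
    rw [Int.abs_eq_natAbs]
    exact_mod_cast h4
  push_cast at h5
  omega

/-- The number of pairs of a class modulo `p` and a class modulo `q`, counted with the elements
they share. -/
theorem pairs_le {N Q : ℕ} (hQ : 0 < Q) (a : (p : ℕ) → ZMod p) {D : Finset ℤ}
    (hD : ∀ s ∈ D, 0 ≤ s ∧ 2 * s < Q) {p q : ℕ} (hq : Q ≤ q) :
    ∑ s ∈ D, ∑ s' ∈ D, (cl N a p s ∩ cl N a q s').card ≤
      D.card * (((Icc (-((N / Q + 1 : ℕ) : ℤ)) ((N / Q + 1 : ℕ) : ℤ)) ×ˢ (D + D - (D + D))).filter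
        fun x => (p : ℤ) ∣ q * x.1 + x.2).card := by
  classical
  set W := ((Icc (-((N / Q + 1 : ℕ) : ℤ)) ((N / Q + 1 : ℕ) : ℤ)) ×ˢ (D + D - (D + D))).filter
        fun x => (p : ℤ) ∣ q * x.1 + x.2 with hW
  set Z := ((Icc 1 N) ×ˢ (D ×ˢ D)).filter fun x : ℕ × ℤ × ℤ =>
    (x.1 : ZMod p) = a p + (x.2.1 : ZMod p) ∧ (x.1 : ZMod q) = a q + (x.2.2 : ZMod q) with hZ
  have hsum : ∑ s ∈ D, ∑ s' ∈ D, (cl N a p s ∩ cl N a q s').card = Z.card := by
    have h1 : Z = (D ×ˢ D).biUnion fun y =>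
        (cl N a p y.1 ∩ cl N a q y.2).map ⟨fun n => (n, y), fun n m h => (Prod.ext_iff.1 h).1⟩ := by
      ext ⟨n, s, s'⟩
      simp only [hZ, mem_filter, mem_product, mem_biUnion, mem_map, mem_inter, cl, Prod.exists]
      constructor
      · rintro ⟨⟨h1, h2, h3⟩, h4, h5⟩
        exact ⟨s, s', ⟨h2, h3⟩, n, ⟨⟨h1, h4⟩, h1, h5⟩, rfl⟩
      · rintro ⟨s1, s2, ⟨h2, h3⟩, m, ⟨⟨h1, h4⟩, _, h5⟩, h⟩
        obtain ⟨h6, h7⟩ := Prod.ext_iff.1 h
        obtain ⟨h8, h9⟩ := Prod.ext_iff.1 h7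
        simp only at h6 h8 h9
        subst h6 h8 h9
        exact ⟨⟨h1, h2, h3⟩, h4, h5⟩
    rw [h1, card_biUnion, sum_product]
    · simp only [card_map]
    · intro y _ y' _ hyy
      refine disjoint_left.2 fun x hx hx' => hyy ?_
      obtain ⟨n, _, rfl⟩ := mem_map.1 hx
      obtain ⟨m, _, hm⟩ := mem_map.1 hx'
      exact (Prod.ext_iff.1 hm).2.symm
  rw [hsum]
  rcases Z.eq_empty_or_nonempty with h0 | ⟨⟨n0, s0, t0⟩, hz0⟩
  · rw [h0]; simp
  have hz0' := mem_filter.1 hz0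
  simp only [mem_product, mem_Icc] at hz0'
  obtain ⟨⟨⟨hn0, hn0N⟩, hs0, ht0⟩, he1, he2⟩ := hz0'
  rw [← card_product]
  refine Finset.card_le_card_of_injOn
    (fun x : ℕ × ℤ × ℤ => (x.2.1, (((x.1 : ℤ) - n0 - (x.2.2 - t0)) / q,
      (x.2.2 - t0) - (x.2.1 - s0)))) ?_ ?_
  · rintro ⟨n, s, s'⟩ hx
    have hx' := mem_filter.1 (mem_coe.1 hx)
    simp only [mem_product, mem_Icc] at hx'
    obtain ⟨⟨⟨hn, hnN⟩, hs, hs'⟩, h1, h2⟩ := hx'
    have hdq : (q : ℤ) ∣ (n : ℤ) - n0 - (s' - t0) := by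
      rw [← ZMod.intCast_zmod_eq_zero_iff_dvd]
      push_cast
      rw [h2, he2]
      ring
    have hdp : (p : ℤ) ∣ (n : ℤ) - n0 - (s - s0) := by
      rw [← ZMod.intCast_zmod_eq_zero_iff_dvd]
      push_cast
      rw [h1, he1]
      ring
    have hv : (q : ℤ) * (((n : ℤ) - n0 - (s' - t0)) / q) = (n : ℤ) - n0 - (s' - t0) :=
      Int.mul_ediv_cancel' hdq
    refine mem_coe.2 (mem_product.2 ⟨hs, mem_filter.2 ⟨mem_product.2 ⟨?_, ?_⟩, ?_⟩⟩)
    · simp only
      set v := ((n : ℤ) - n0 - (s' - t0)) / q with hvd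
      have hDs' := hD s' hs'
      have hDt := hD t0 ht0
      have hQq : (Q : ℤ) ≤ q := by exact_mod_cast hq
      have hQ0 : (0 : ℤ) < Q := by exact_mod_cast hQ
      have hq0 : (0 : ℤ) < q := by omega
      have hNQ : (N : ℤ) < Q * ((N / Q : ℕ) + 1) := by
        have := Nat.lt_mul_div_succ N hQ
        exact_mod_cast this
      rw [mem_Icc]
      constructor
      · by_contra hc
        push Not at hc
        push_cast at hc
        have h3 : (q : ℤ) * v ≤ q * (-((N / Q : ℕ) : ℤ) - 2) :=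
          mul_le_mul_of_nonneg_left (by push_cast; omega) hq0.le
        have h4 : (Q : ℤ) * (((N / Q : ℕ) : ℤ) + 2) ≤ q * (((N / Q : ℕ) : ℤ) + 2) :=
          mul_le_mul_of_nonneg_right hQq (by positivity)
        nlinarith
      · by_contra hc
        push Not at hc
        push_cast at hc
        have h3 : (q : ℤ) * (((N / Q : ℕ) : ℤ) + 2) ≤ q * v :=
          mul_le_mul_of_nonneg_left (by push_cast; omega) hq0.le
        have h4 : (Q : ℤ) * (((N / Q : ℕ) : ℤ) + 2) ≤ q * (((N / Q : ℕ) : ℤ) + 2) :=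
          mul_le_mul_of_nonneg_right hQq (by positivity)
        nlinarith
    · simp only
      have : s' - t0 - (s - s0) = (s' + s0) - (s + t0) := by ring
      rw [this]
      exact sub_mem_sub (add_mem_add hs' hs0) (add_mem_add hs ht0)
    · simp only
      rw [hv]
      have : (n : ℤ) - n0 - (s' - t0) + (s' - t0 - (s - s0)) = (n : ℤ) - n0 - (s - s0) := by ring
      rw [this]
      exact hdp
  · rintro ⟨n, s, s'⟩ hx ⟨m, r, r'⟩ hy hxy
    have hx' := mem_filter.1 (mem_coe.1 hx)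
    have hy' := mem_filter.1 (mem_coe.1 hy)
    simp only [mem_product, mem_Icc] at hx' hy'
    simp only [Prod.mk.injEq] at hxy
    obtain ⟨rfl, hv, he⟩ := hxy
    have hs : s' = r' := by linarith
    subst hs
    have hdq : (q : ℤ) ∣ (n : ℤ) - n0 - (s' - t0) := by
      rw [← ZMod.intCast_zmod_eq_zero_iff_dvd]
      push_cast
      rw [hx'.2.2, he2]
      ring
    have hdq' : (q : ℤ) ∣ (m : ℤ) - n0 - (s' - t0) := by
      rw [← ZMod.intCast_zmod_eq_zero_iff_dvd]
      push_cast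
      rw [hy'.2.2, he2]
      ring
    have h1 := Int.mul_ediv_cancel' hdq
    have h2 := Int.mul_ediv_cancel' hdq'
    rw [hv] at h1
    have h3 : (n : ℤ) = m := by linarith
    have h4 : n = m := by exact_mod_cast h3
    subst h4
    rfl

/-- The sum over all pairs of different primes. -/
theorem all_pairs_le {P : Finset ℕ} {N Q : ℕ} (hQ : 2 ≤ Q) (hU : N / Q + 1 < Q)
    (hP : ∀ p ∈ P, p.Prime ∧ Q ≤ p ∧ p < 2 * Q) (a : (p : ℕ) → ZMod p) {D : Finset ℤ}
    (hD : ∀ s ∈ D, 0 ≤ s ∧ 2 * s < Q) :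
    ∑ p ∈ P, ∑ q ∈ P.erase p, ∑ s ∈ D, ∑ s' ∈ D, (cl N a p s ∩ cl N a q s').card ≤
      D.card * (P.card ^ 2 + 4 * (N / Q + 1) * P.card * (D + D - (D + D)).card) := by
  classical
  set U := N / Q + 1 with hUd
  set E := D + D - (D + D) with hE
  set B := (Icc (-(U : ℤ)) (U : ℤ)).erase 0 with hB
  have hBc : B.card = 2 * U := by
    have hU0 : (0 : ℤ) ≤ (U : ℤ) := Int.natCast_nonneg _
    rw [hB, card_erase_of_mem (mem_Icc.2 ⟨neg_nonpos.2 hU0, hU0⟩), Int.card_Icc]
    clear_value U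
    omega
  have hEs : ∀ e ∈ E, |e| < (Q : ℤ) := by
    intro e he
    obtain ⟨x, hx, y, hy, rfl⟩ := mem_sub.1 he
    obtain ⟨x1, h1, x2, h2, rfl⟩ := mem_add.1 hx
    obtain ⟨y1, h3, y2, h4, rfl⟩ := mem_add.1 hy
    have := hD x1 h1
    have := hD x2 h2
    have := hD y1 h3
    have := hD y2 h4
    rw [abs_lt]
    constructor <;> omega
  -- one pair
  have hone : ∀ p ∈ P, ∀ q ∈ P.erase p,
      ∑ s ∈ D, ∑ s' ∈ D, (cl N a p s ∩ cl N a q s').card ≤
        D.card * (1 + ((B ×ˢ E).filter fun x => (p : ℤ) ∣ q * x.1 + x.2).card) := by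
    intro p hp q hq
    have hqP := hP q (mem_of_mem_erase hq)
    have hpP := hP p hp
    refine (pairs_le (by omega) a hD hqP.2.1).trans (Nat.mul_le_mul_left _ ?_)
    have hsub : ((Icc (-((N / Q + 1 : ℕ) : ℤ)) ((N / Q + 1 : ℕ) : ℤ)) ×ˢ (D + D - (D + D))).filter
        (fun x => (p : ℤ) ∣ q * x.1 + x.2) ⊆
        insert (0, 0) ((B ×ˢ E).filter fun x => (p : ℤ) ∣ q * x.1 + x.2) := by
      rintro ⟨v, e⟩ hx
      obtain ⟨h1, h2⟩ := mem_filter.1 hx
      obtain ⟨h3, h4⟩ := mem_product.1 h1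
      simp only at h2 h3 h4
      rw [mem_insert]
      by_cases hv : v = 0
      · left
        subst hv
        have he := hEs e h4
        have hpe : (p : ℤ) ∣ e := by simpa using h2
        have hQp : (Q : ℤ) ≤ p := by exact_mod_cast hpP.2.1
        have : e = 0 := Int.eq_zero_of_abs_lt_dvd hpe (by omega)
        rw [this]
      · right
        exact mem_filter.2 ⟨mem_product.2 ⟨mem_erase.2 ⟨hv, h3⟩, h4⟩, h2⟩
    refine (card_le_card hsub).trans ((card_insert_le _ _).trans ?_)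
    omega
  calc ∑ p ∈ P, ∑ q ∈ P.erase p, ∑ s ∈ D, ∑ s' ∈ D, (cl N a p s ∩ cl N a q s').card
      ≤ ∑ p ∈ P, ∑ q ∈ P.erase p,
        D.card * (1 + ((B ×ˢ E).filter fun x => (p : ℤ) ∣ q * x.1 + x.2).card) :=
        sum_le_sum fun p hp => sum_le_sum fun q hq => hone p hp q hq
    _ ≤ ∑ p ∈ P, ∑ q ∈ P,
        D.card * (1 + ((B ×ˢ E).filter fun x => (p : ℤ) ∣ q * x.1 + x.2).card) :=
        sum_le_sum fun p _ => sum_le_sum_of_subset (erase_subset _ _)
    _ = ∑ q ∈ P, D.card * (P.card + ∑ x ∈ B ×ˢ E,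
        (P.filter fun p : ℕ => (p : ℤ) ∣ q * x.1 + x.2).card) := by
        rw [sum_comm]
        refine sum_congr rfl fun q _ => ?_
        rw [← mul_sum, sum_add_distrib]
        congr 2
        · simp
        · simp only [card_filter]
          rw [sum_comm]
    _ ≤ ∑ q ∈ P, D.card * (P.card + ∑ x ∈ B ×ˢ E, 2) := by
        refine sum_le_sum fun q hq => Nat.mul_le_mul_left _ (Nat.add_le_add_left
          (sum_le_sum fun x hx => ?_) _)
        obtain ⟨h1, h2⟩ := mem_product.1 hx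
        obtain ⟨hv0, hv⟩ := mem_erase.1 h1
        rw [mem_Icc] at hv
        have he := abs_lt.1 (hEs _ h2)
        have hqP := hP q hq
        have hQq : (Q : ℤ) ≤ q := by exact_mod_cast hqP.2.1
        have hQq2 : (q : ℤ) < 2 * Q := by exact_mod_cast hqP.2.2
        have hUQ : (U : ℤ) + 1 ≤ Q := by exact_mod_cast hU
        have hQ2 : (2 : ℤ) ≤ Q := by exact_mod_cast hQ
        refine two_primes (fun p hp => ⟨(hP p hp).1, (hP p hp).2.1⟩) ?_ ?_
        · intro h0
          rcases lt_trichotomy x.1 0 with h | h | h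
          · nlinarith
          · exact hv0 h
          · nlinarith
        · have h3 : |(q : ℤ) * x.1 + x.2| < 2 * Q * U + Q := by
            rw [abs_lt]
            have hv1 : x.1 ≤ U := hv.2
            have hv2 : -(U : ℤ) ≤ x.1 := hv.1
            have h5 : (q : ℤ) * x.1 ≤ q * U := mul_le_mul_of_nonneg_left hv1 (by omega)
            have h6 : (q : ℤ) * (-(U : ℤ)) ≤ q * x.1 := mul_le_mul_of_nonneg_left hv2 (by omega)
            have h7 : (q : ℤ) * U ≤ 2 * Q * U := mul_le_mul_of_nonneg_right hQq2.le (by positivity)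
            constructor <;> nlinarith
          have h4 : 2 * (Q : ℤ) * U + Q ≤ 2 * Q ^ 2 := by nlinarith
          have h5 : 2 * (Q : ℤ) ^ 2 ≤ Q ^ 3 := by
            have : (Q : ℤ) ^ 3 = Q ^ 2 * Q := by ring
            rw [this]
            nlinarith [sq_nonneg (Q : ℤ)]
          linarith
    _ = D.card * (P.card ^ 2 + 4 * U * P.card * E.card) := by
        rw [sum_const, sum_const, card_product, hBc, smul_eq_mul, smul_eq_mul]
        ring

end Pool.Agent.V11298.CR
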