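import Mathlib
import Pool.Agent.V11298.CR.Dif

/-!
Random perturbations of a choice of residue classes: the finite form.
-/

set_option autoImplicit false

open Finset
open scoped Pointwise

namespace Pool.Agent.V11298.CR

/-- One coordinate of a function. -/
theorem avg_one {ι α : Type} [Fintype ι] [DecidableEq ι] [Fintype α] (i : ι) (G : α → ℝ) :
    (∑ t : ι → α, G (t i)) * (Fintype.card α : ℝ) =
      (Fintype.card α : ℝ) ^ Fintype.card ι * ∑ x, G x := by
  classical
  have h1 : ∑ t : ι → α, G (t i) = ∑ y : α × ({j // j ≠ i} → α), G y.1 := by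
    refine Fintype.sum_equiv (Equiv.funSplitAt i α) _ _ fun t => ?_
    rfl
  have h2 : Fintype.card {j // j ≠ i} + 1 = Fintype.card ι := by
    have := Fintype.card_subtype_compl (fun j => j = i)
    rw [Fintype.card_subtype_eq] at this
    have hpos : 0 < Fintype.card ι := Fintype.card_pos_iff.2 ⟨i⟩
    have h3 : Fintype.card {j // j ≠ i} = Fintype.card ι - 1 := this
    omega
  rw [h1, Fintype.sum_prod_type]
  simp only [sum_const, card_univ, nsmul_eq_mul]
  rw [← mul_sum, Fintype.card_fun, ← h2, pow_succ]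
  push_cast
  ring

/-- Two coordinates of a function. -/
theorem avg_two {ι α : Type} [Fintype ι] [DecidableEq ι] [Fintype α] {i j : ι} (hij : j ≠ i)
    (F : α → α → ℝ) :
    (∑ t : ι → α, F (t i) (t j)) * (Fintype.card α : ℝ) ^ 2 =
      (Fintype.card α : ℝ) ^ Fintype.card ι * ∑ x, ∑ y, F x y := by
  classical
  have h1 : ∑ t : ι → α, F (t i) (t j) =
      ∑ y : α × ({j // j ≠ i} → α), F y.1 (y.2 ⟨j, hij⟩) := by
    refine Fintype.sum_equiv (Equiv.funSplitAt i α) _ _ fun t => ?_
    rfl
  have h2 : Fintype.card {j // j ≠ i} + 1 = Fintype.card ι := by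
    have := Fintype.card_subtype_compl (fun j => j = i)
    rw [Fintype.card_subtype_eq] at this
    have hpos : 0 < Fintype.card ι := Fintype.card_pos_iff.2 ⟨i⟩
    have h3 : Fintype.card {j // j ≠ i} = Fintype.card ι - 1 := this
    omega
  rw [h1, Fintype.sum_prod_type, ← h2,
    pow_succ (Fintype.card α : ℝ) (Fintype.card {j // j ≠ i}), pow_two, ← mul_assoc, sum_mul]
  have h3 : ∀ x : α, (∑ t : {j // j ≠ i} → α, F x (t ⟨j, hij⟩)) * (Fintype.card α : ℝ) =
      (Fintype.card α : ℝ) ^ Fintype.card {j // j ≠ i} * ∑ y, F x y := fun x =>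
    avg_one (⟨j, hij⟩ : {j // j ≠ i}) (F x)
  simp only [h3]
  rw [← mul_sum]
  ring

theorem lin {τ : Type} [Fintype τ] (A B c : ℝ) (g : τ → ℝ) :
    ∑ t, (A - c * (B + g t)) =
      (Fintype.card τ : ℝ) * A - c * ((Fintype.card τ : ℝ) * B + ∑ t, g t) := by
  rw [sum_sub_distrib, ← mul_sum, sum_add_distrib, sum_const, sum_const, card_univ, nsmul_eq_mul,
    nsmul_eq_mul]

/-- A lower bound for a union. -/
theorem union_ge {ι β : Type} [Fintype ι] [DecidableEq β] (A : ι → Finset β) (l : ℝ) :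
    2 * l * ∑ i, ((A i).card : ℝ) - l ^ 2 * ∑ i, ∑ j, ((A i ∩ A j).card : ℝ) ≤
      ((univ.biUnion A).card : ℝ) := by
  classical
  set B := univ.biUnion A with hB
  have h1 : ∀ i, ((A i).card : ℝ) = ∑ b ∈ B, if b ∈ A i then (1 : ℝ) else 0 := by
    intro i
    rw [← Finset.sum_filter, sum_const, nsmul_eq_mul, mul_one]
    congr 2
    ext b
    rw [mem_filter]
    exact ⟨fun h => ⟨mem_biUnion.2 ⟨i, mem_univ _, h⟩, h⟩, fun h => h.2⟩
  have h2 : ∀ i j, ((A i ∩ A j).card : ℝ) =
      ∑ b ∈ B, (if b ∈ A i then (1 : ℝ) else 0) * (if b ∈ A j then (1 : ℝ) else 0) := by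
    intro i j
    have : ∀ b, (if b ∈ A i then (1 : ℝ) else 0) * (if b ∈ A j then (1 : ℝ) else 0) =
        if b ∈ A i ∩ A j then (1 : ℝ) else 0 := by
      intro b
      by_cases h : b ∈ A i <;> by_cases h' : b ∈ A j <;> simp [h, h']
    simp only [this]
    rw [← Finset.sum_filter, sum_const, nsmul_eq_mul, mul_one]
    congr 2
    ext b
    rw [mem_filter]
    exact ⟨fun h => ⟨mem_biUnion.2 ⟨i, mem_univ _, (mem_inter.1 h).1⟩, h⟩, fun h => h.2⟩
  have h3 : ∑ i, ((A i).card : ℝ) = ∑ b ∈ B, ∑ i, (if b ∈ A i then (1 : ℝ) else 0) := by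
    simp only [h1]
    rw [sum_comm]
  have h4 : ∑ i, ∑ j, ((A i ∩ A j).card : ℝ) =
      ∑ b ∈ B, (∑ i, (if b ∈ A i then (1 : ℝ) else 0)) ^ 2 := by
    simp only [h2]
    rw [sum_congr rfl fun i _ => sum_comm, sum_comm]
    refine sum_congr rfl fun b _ => ?_
    rw [pow_two, sum_mul_sum]
  rw [h3, h4, mul_sum, mul_sum, ← sum_sub_distrib]
  calc ∑ b ∈ B, (2 * l * ∑ i, (if b ∈ A i then (1 : ℝ) else 0) -
        l ^ 2 * (∑ i, (if b ∈ A i then (1 : ℝ) else 0)) ^ 2)
      ≤ ∑ b ∈ B, (1 : ℝ) := by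
        refine sum_le_sum fun b _ => ?_
        nlinarith [sq_nonneg (1 - l * ∑ i, (if b ∈ A i then (1 : ℝ) else 0))]
    _ = (B.card : ℝ) := by simp

theorem card_cl_le {N : ℕ} (a : (p : ℕ) → ZMod p) {p : ℕ} (s : ℤ) :
    (cl N a p s).card ≤ N / p + 1 := by
  have h : (cl N a p s).card ≤ (range (N / p + 1)).card := by
    refine Finset.card_le_card_of_injOn (fun n => n / p) ?_ ?_
    · intro n hn
      have hn' := mem_filter.1 (mem_coe.1 hn)
      rw [mem_Icc] at hn'
      refine mem_coe.2 (mem_range.2 (Nat.lt_succ_of_le (Nat.div_le_div_right hn'.1.2)))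
    · intro n hn m hm hnm
      have hn' := (mem_filter.1 (mem_coe.1 hn)).2
      have hm' := (mem_filter.1 (mem_coe.1 hm)).2
      have h1 : (n : ZMod p) = m := hn'.trans hm'.symm
      have h2 : n % p = m % p := (ZMod.natCast_eq_natCast_iff' n m p).1 h1
      simp only at hnm
      rw [← Nat.div_add_mod n p, ← Nat.div_add_mod m p, hnm, h2]
  rwa [card_range] at h

theorem le_card_cl {N : ℕ} (a : (p : ℕ) → ZMod p) {p : ℕ} (hp : 0 < p) (s : ℤ) :
    N / p ≤ (cl N a p s).card := by
  classical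
  have h := Pool.Agent.H170R2.PC.card_Cl_ge (a := fun q => a q + (s : ZMod q)) (N := N) hp
    (Nat.div_mul_le_self N p)
  refine h.trans (card_le_card ?_)
  intro n hn
  have hn' := mem_filter.1 hn
  exact mem_filter.2 hn'

/-- The covered integers, as a union. -/
def cov (P : Finset ℕ) (N : ℕ) (a : (p : ℕ) → ZMod p) (D : Finset ℤ) (t : P → D) : Finset ℕ :=
  univ.biUnion fun p : P => cl N a p (t p)

theorem finite {P : Finset ℕ} {N Q : ℕ} (hQ : 2 ≤ Q) (hU : N / Q + 1 < Q) (hN : 2 * Q ≤ N)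
    (hP : ∀ p ∈ P, p.Prime ∧ Q ≤ p ∧ p < 2 * Q) (a : (p : ℕ) → ZMod p) {D : Finset ℤ}
    (hDne : D.Nonempty) (hD : ∀ s ∈ D, 0 ≤ s ∧ 2 * s < Q) {K : ℝ}
    (hK : ((D + D - (D + D)).card : ℝ) ≤ K * D.card)
    (hPD : (P.card : ℝ) ≤ 2 * D.card * (N / Q)) :
    ((univ.filter fun t : P → D =>
        ((cov P N a D t).card : ℝ) < P.card * (N / Q) / (384 * K)).card : ℝ) ≤
      Real.exp (-(P.card / (1179648 * K ^ 2))) * (D.card : ℝ) ^ P.card := by
  classical
  rcases P.eq_empty_or_nonempty with hPe | hPne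
  · subst hPe
    have : (univ.filter fun t : (∅ : Finset ℕ) → D =>
        ((cov ∅ N a D t).card : ℝ) < ((∅ : Finset ℕ).card : ℝ) * (N / Q) / (384 * K)) = ∅ := by
      refine filter_eq_empty_iff.2 fun t _ => ?_
      simp
    rw [this]
    simp only [card_empty, Nat.cast_zero]
    positivity
  have : Nonempty D := hDne.to_subtype
  set R : ℝ := (N : ℝ) / Q with hR
  have hQ0 : (0 : ℝ) < Q := by exact_mod_cast (by omega : 0 < Q)
  have hR2 : 2 ≤ R := by
    rw [hR, le_div_iff₀ hQ0]
    exact_mod_cast hN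
  have hDpos : (0 : ℝ) < D.card := by exact_mod_cast hDne.card_pos
  have hPpos : (0 : ℝ) < P.card := by exact_mod_cast hPne.card_pos
  have hK1 : 1 ≤ K := by
    obtain ⟨d, hd⟩ := hDne
    have h1 : D.card ≤ (D + D - (D + D)).card := by
      refine Finset.card_le_card_of_injOn (fun x => (x + d) - (d + d)) ?_ ?_
      · intro x hx
        exact mem_coe.2 (sub_mem_sub (add_mem_add (mem_coe.1 hx) hd) (add_mem_add hd hd))
      · intro x _ y _ hxy
        simpa using hxy
    have h2 : (D.card : ℝ) ≤ K * D.card := le_trans (by exact_mod_cast h1) hK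
    by_contra hc
    push Not at hc
    nlinarith
  have hU1 : ((N / Q + 1 : ℕ) : ℝ) ≤ 2 * R := by
    have : ((N / Q : ℕ) : ℝ) ≤ R := Nat.cast_div_le
    push_cast
    linarith
  -- upper and lower bounds for the classes
  have hcl2 : ∀ (p : P) (s : D), ((cl N a p s).card : ℝ) ≤ 2 * R := by
    intro p s
    refine le_trans ?_ hU1
    have h1 : N / (p : ℕ) ≤ N / Q := Nat.div_le_div_left (hP p p.2).2.1 (by omega)
    have h2 := card_cl_le (N := N) a (p := (p : ℕ)) (s : ℤ)
    exact_mod_cast h2.trans (by omega)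
  have hcl1 : ∀ (p : P) (s : D), R / 4 ≤ ((cl N a p s).card : ℝ) := by
    intro p s
    have hp := hP p p.2
    have hp0 : 0 < (p : ℕ) := hp.1.pos
    have h2 := le_card_cl (N := N) a hp0 (s : ℤ)
    have h3 : (N : ℝ) < ((N / (p : ℕ) : ℕ) + 1) * p := by
      have := Nat.lt_mul_div_succ N hp0
      have h' : ((N : ℕ) : ℝ) < (((p : ℕ) * (N / p + 1) : ℕ) : ℝ) := by exact_mod_cast this
      push_cast at h'
      linarith
    have h4 : 1 ≤ N / (p : ℕ) := (Nat.one_le_div_iff hp0).2 (by omega)
    have h4' : (1 : ℝ) ≤ (N / (p : ℕ) : ℕ) := by exact_mod_cast h4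
    have h5 : ((p : ℕ) : ℝ) ≤ 2 * Q := by exact_mod_cast hp.2.2.le
    have h6 : (N : ℝ) ≤ 4 * (N / (p : ℕ) : ℕ) * Q := by nlinarith
    have h7 : R / 4 ≤ ((N / (p : ℕ) : ℕ) : ℝ) := by
      rw [hR, div_div, div_le_iff₀ (by positivity)]
      linarith
    refine h7.trans ?_
    exact_mod_cast h2
  -- the mean
  set W : ℝ := (Fintype.card D : ℝ) ^ Fintype.card P with hW
  have hcD : (Fintype.card D : ℝ) = D.card := by simp
  have hcP : Fintype.card P = P.card := by simp
  have hWpos : 0 < W := by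
    rw [hW, hcD]
    positivity
  set f : (P → D) → ℝ := fun t => ((cov P N a D t).card : ℝ) with hf
  have hoff : ∑ t : P → D, ∑ p : P, ∑ q ∈ univ.erase p, ((cl N a p (t p) ∩ cl N a q (t q)).card : ℝ) ≤
      W * (10 * K * P.card * R) := by
    have h1 : (∑ t : P → D, ∑ p : P, ∑ q ∈ univ.erase p,
        ((cl N a p (t p) ∩ cl N a q (t q)).card : ℝ)) * (Fintype.card D : ℝ) ^ 2 =
        W * ∑ p : P, ∑ q ∈ univ.erase p, ∑ s : D, ∑ s' : D,
          ((cl N a p s ∩ cl N a q s').card : ℝ) := by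
      rw [sum_comm, sum_mul, mul_sum]
      refine sum_congr rfl fun p _ => ?_
      rw [sum_comm, sum_mul, mul_sum]
      refine sum_congr rfl fun q hq => ?_
      exact avg_two (ne_of_mem_erase hq)
        (fun x y : D => ((cl N a p x ∩ cl N a q y).card : ℝ))
    have h2 : (∑ p : P, ∑ q ∈ univ.erase p, ∑ s : D, ∑ s' : D,
          ((cl N a p s ∩ cl N a q s').card : ℝ)) =
        ((∑ p ∈ P, ∑ q ∈ P.erase p, ∑ s ∈ D, ∑ s' ∈ D,
          (cl N a p s ∩ cl N a q s').card : ℕ) : ℝ) := by
      push_cast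
      rw [← sum_coe_sort P]
      refine sum_congr rfl fun p _ => ?_
      have h3 : ∀ g : ℕ → ℝ, ∑ q ∈ univ.erase p, g (q : P) = ∑ q ∈ P.erase (p : ℕ), g q := by
        intro g
        rw [← sub_eq_zero]
        have e1 : ∑ q ∈ univ.erase p, g (q : P) = ∑ q : P, g q - g p := by
          rw [← sum_erase_add _ _ (mem_univ p)]
          ring
        have e2 : ∑ q ∈ P.erase (p : ℕ), g q = ∑ q ∈ P, g q - g p := by
          rw [← sum_erase_add _ _ p.2]
          ring
        rw [e1, e2, sum_coe_sort P g]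
        ring
      rw [← h3 (fun q => ∑ s ∈ D, ∑ s' ∈ D, ((cl N a p s ∩ cl N a q s').card : ℝ))]
      refine sum_congr rfl fun q _ => ?_
      rw [← sum_coe_sort D]
      refine sum_congr rfl fun s _ => ?_
      rw [← sum_coe_sort D]
    have h3 := all_pairs_le hQ hU hP a hD
    have h4 : ((∑ p ∈ P, ∑ q ∈ P.erase p, ∑ s ∈ D, ∑ s' ∈ D,
          (cl N a p s ∩ cl N a q s').card : ℕ) : ℝ) ≤
        D.card * (P.card ^ 2 + 4 * ((N / Q + 1 : ℕ) : ℝ) * P.card * (D + D - (D + D)).card) := by
      exact_mod_cast h3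
    have h5 : (D.card : ℝ) * (P.card ^ 2 + 4 * ((N / Q + 1 : ℕ) : ℝ) * P.card *
        (D + D - (D + D)).card) ≤ (D.card : ℝ) ^ 2 * (10 * K * P.card * R) := by
      have e1 : (P.card : ℝ) ^ 2 ≤ P.card * (2 * D.card * R) := by
        rw [pow_two]
        exact mul_le_mul_of_nonneg_left hPD hPpos.le
      have e2 : 4 * ((N / Q + 1 : ℕ) : ℝ) * P.card * (D + D - (D + D)).card ≤
          4 * (2 * R) * P.card * (K * D.card) := by
        refine mul_le_mul ?_ hK (by positivity) (by positivity)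
        refine mul_le_mul_of_nonneg_right ?_ hPpos.le
        linarith
      have e3 : (P.card : ℝ) ^ 2 + 4 * ((N / Q + 1 : ℕ) : ℝ) * P.card *
          (D + D - (D + D)).card ≤ D.card * (10 * K * P.card * R) := by
        have e4 : P.card * (2 * D.card * R) ≤ K * (P.card * (2 * D.card * R)) :=
          le_mul_of_one_le_left (by positivity) hK1
        nlinarith
      calc (D.card : ℝ) * (P.card ^ 2 + 4 * ((N / Q + 1 : ℕ) : ℝ) * P.card *
            (D + D - (D + D)).card) ≤ D.card * (D.card * (10 * K * P.card * R)) :=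
            mul_le_mul_of_nonneg_left e3 hDpos.le
        _ = (D.card : ℝ) ^ 2 * (10 * K * P.card * R) := by ring
    rw [h2, hcD] at h1
    have h6 : (∑ t : P → D, ∑ p : P, ∑ q ∈ univ.erase p,
        ((cl N a p (t p) ∩ cl N a q (t q)).card : ℝ)) * (D.card : ℝ) ^ 2 ≤
        (W * (10 * K * P.card * R)) * (D.card : ℝ) ^ 2 := by
      rw [h1]
      calc W * _ ≤ W * ((D.card : ℝ) ^ 2 * (10 * K * P.card * R)) :=
            mul_le_mul_of_nonneg_left (h4.trans h5) hWpos.le
        _ = _ := by ring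
    exact le_of_mul_le_mul_right h6 (by positivity)
  have hmean : P.card * R / (192 * K) ≤ (∑ t, f t) / W := by
    rw [le_div_iff₀ hWpos]
    set l : ℝ := 1 / (48 * K) with hl
    have hlpos : 0 < l := by rw [hl]; positivity
    have h1 : ∀ t : P → D, 2 * l * (P.card * (R / 4)) - l ^ 2 * (P.card * (2 * R) +
        ∑ p : P, ∑ q ∈ univ.erase p, ((cl N a p (t p) ∩ cl N a q (t q)).card : ℝ)) ≤ f t := by
      intro t
      have h2 := union_ge (fun p : P => cl N a p (t p)) l
      refine le_trans ?_ h2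
      have h3 : (P.card : ℝ) * (R / 4) ≤ ∑ p : P, ((cl N a p (t p)).card : ℝ) := by
        calc (P.card : ℝ) * (R / 4) = ∑ _p : P, R / 4 := by simp
          _ ≤ _ := sum_le_sum fun p _ => hcl1 p (t p)
      have h4 : ∑ p : P, ∑ q : P, ((cl N a p (t p) ∩ cl N a q (t q)).card : ℝ) ≤
          P.card * (2 * R) +
          ∑ p : P, ∑ q ∈ univ.erase p, ((cl N a p (t p) ∩ cl N a q (t q)).card : ℝ) := by
        calc ∑ p : P, ∑ q : P, ((cl N a p (t p) ∩ cl N a q (t q)).card : ℝ)
            = ∑ p : P, ((cl N a p (t p)).card : ℝ) + ∑ p : P, ∑ q ∈ univ.erase p,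
              ((cl N a p (t p) ∩ cl N a q (t q)).card : ℝ) := by
              rw [← sum_add_distrib]
              refine sum_congr rfl fun p _ => ?_
              rw [← sum_erase_add _ _ (mem_univ p), inter_self, add_comm]
          _ ≤ ∑ _p : P, 2 * R + ∑ p : P, ∑ q ∈ univ.erase p,
              ((cl N a p (t p) ∩ cl N a q (t q)).card : ℝ) :=
              add_le_add_left (sum_le_sum fun p _ => hcl2 p (t p)) _
          _ = _ := by simp
      have h5 : 2 * l * ((P.card : ℝ) * (R / 4)) ≤
          2 * l * ∑ p : P, ((cl N a p (t p)).card : ℝ) :=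
        mul_le_mul_of_nonneg_left h3 (by positivity)
      have h6 := mul_le_mul_of_nonneg_left h4 (sq_nonneg l)
      linarith
    have h2 : ∑ t : P → D, (2 * l * (P.card * (R / 4)) - l ^ 2 * (P.card * (2 * R) +
        ∑ p : P, ∑ q ∈ univ.erase p, ((cl N a p (t p) ∩ cl N a q (t q)).card : ℝ))) ≤
        ∑ t, f t := sum_le_sum fun t _ => h1 t
    have h3 : ∑ t : P → D, (2 * l * (P.card * (R / 4)) - l ^ 2 * (P.card * (2 * R) +
        ∑ p : P, ∑ q ∈ univ.erase p, ((cl N a p (t p) ∩ cl N a q (t q)).card : ℝ))) =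
        W * (2 * l * (P.card * (R / 4))) - l ^ 2 * (W * (P.card * (2 * R)) +
        ∑ t : P → D, ∑ p : P, ∑ q ∈ univ.erase p,
          ((cl N a p (t p) ∩ cl N a q (t q)).card : ℝ)) := by
      have hcard : (Fintype.card (P → D) : ℝ) = W := by
        rw [Fintype.card_fun, hW]
        push_cast
        rfl
      rw [lin, hcard]
    rw [h3] at h2
    refine le_trans ?_ h2
    have h4 : l ^ 2 * (W * (P.card * (2 * R)) + ∑ t : P → D, ∑ p : P, ∑ q ∈ univ.erase p,
          ((cl N a p (t p) ∩ cl N a q (t q)).card : ℝ)) ≤ l ^ 2 * (W * (12 * K * P.card * R)) := by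
      refine mul_le_mul_of_nonneg_left ?_ (sq_nonneg l)
      have e1 : W * (P.card * (2 * R)) ≤ W * (2 * K * P.card * R) := by
        refine mul_le_mul_of_nonneg_left ?_ hWpos.le
        have : (P.card : ℝ) * (2 * R) ≤ K * (P.card * (2 * R)) :=
          le_mul_of_one_le_left (by positivity) hK1
        linarith
      linarith
    have h5 : l ^ 2 * (W * (12 * K * P.card * R)) = l * (W * (P.card * (R / 4))) := by
      rw [hl]
      field_simp
      ring
    have h6 : P.card * R / (192 * K) * W = l * (W * (P.card * (R / 4))) := by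
      rw [hl]
      field_simp
      ring
    rw [h6]
    nlinarith
  -- concentration
  have hdiff : ∀ (t : P → D) (p : P) (s : D), |f (Function.update t p s) - f t| ≤ 2 * R := by
    have key : ∀ (t : P → D) (p : P) (s : D), f (Function.update t p s) ≤ f t + 2 * R := by
      intro t p s
      have hsub : cov P N a D (Function.update t p s) ⊆ cov P N a D t ∪ cl N a p s := by
        intro n hn
        obtain ⟨q, _, hq⟩ := mem_biUnion.1 hn
        by_cases hqp : q = p
        · subst hqp
          rw [Function.update_self] at hq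
          exact mem_union_right _ hq
        · rw [Function.update_of_ne hqp] at hq
          exact mem_union_left _ (mem_biUnion.2 ⟨q, mem_univ _, hq⟩)
      have h1 : (cov P N a D (Function.update t p s)).card ≤
          (cov P N a D t).card + (cl N a p s).card :=
        (card_le_card hsub).trans (card_union_le _ _)
      have h2 := hcl2 p s
      have h3 : ((cov P N a D (Function.update t p s)).card : ℝ) ≤
          (cov P N a D t).card + (cl N a p s).card := by exact_mod_cast h1
      simp only [hf]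
      linarith
    intro t p s
    rw [abs_le]
    constructor
    · have h := key (Function.update t p s) p (t p)
      rw [Function.update_idem, Function.update_eq_self] at h
      linarith
    · have h := key t p s
      linarith
  have hmc := Pool.Agent.V1181.BDiff.lower (ι := P) (α := D) (fun _ => 2 * R) f
    (fun _ => by linarith) hdiff (P.card * (2 * R) ^ 2) (P.card * R / (384 * K)) (by positivity)
    (by simp) (by positivity)
  refine le_trans ?_ (le_trans hmc ?_)
  · norm_cast
    refine card_le_card fun t ht => ?_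
    have h1 := (mem_filter.1 ht).2
    refine mem_filter.2 ⟨mem_univ _, ?_⟩
    have h2 : (P.card : ℝ) * R / (192 * K) = 2 * (P.card * R / (384 * K)) := by
      field_simp
      ring
    rw [h2] at hmean
    have h3 : f t < P.card * R / (384 * K) := h1
    have h4 : (∑ w', f w') / (Fintype.card D : ℝ) ^ Fintype.card P = (∑ t, f t) / W := rfl
    push_cast
    rw [h4]
    linarith
  · rw [hcD, hcP]
    refine mul_le_mul_of_nonneg_right (Real.exp_le_exp.2 ?_) (by positivity)
    refine neg_le_neg (le_of_eq ?_)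
    field_simp
    ring

end Pool.Agent.V11298.CR
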