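import Mathlib
import Pool.Agent.V11298.CR.Fin

/-!
Random perturbations of a choice of residue classes: the form with `N ^ α`.
-/

set_option autoImplicit false

open Finset Filter Topology
open scoped Pointwise
open Pool.Agent.H170R2.PC

namespace Pool.Agent.V11298.CR

/-- The choice of residues `a` after the perturbation `t`: the class `a p` is replaced by
`a p + t p` for the primes `p` of the set `P`. -/
def perturb {P : Finset ℕ} {D : Finset ℤ} (a : (p : ℕ) → ZMod p) (t : P → D) :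
    (p : ℕ) → ZMod p := fun p =>
  if h : p ∈ P then a p + (((t ⟨p, h⟩ : D) : ℤ) : ZMod p) else a p

/-- The number of the integers `1 ≤ n ≤ N` in the class `a p` modulo `p` for some `p` in `P`. -/
def covered (P : Finset ℕ) (N : ℕ) (a : (p : ℕ) → ZMod p) : ℕ :=
  ((Icc 1 N).filter fun n => ∃ p ∈ P, (n : ZMod p) = a p).card

theorem cov_card {P : Finset ℕ} {N : ℕ} (a : (p : ℕ) → ZMod p) {D : Finset ℤ} (t : P → D) :
    (cov P N a D t).card = covered P N (perturb a t) := by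
  rw [covered]
  congr 1
  ext n
  rw [cov, mem_biUnion, mem_filter]
  constructor
  · rintro ⟨p, _, hp⟩
    obtain ⟨h1, h2⟩ := mem_filter.1 hp
    refine ⟨h1, p, p.2, ?_⟩
    rw [perturb, dif_pos p.2]
    exact h2
  · rintro ⟨h1, p, hp, h2⟩
    rw [perturb, dif_pos hp] at h2
    exact ⟨⟨p, hp⟩, mem_univ _, mem_filter.2 ⟨h1, h2⟩⟩

/-- Functions that only depend on some of the coordinates. -/
theorem restrict {ι κ α : Type} [Fintype ι] [DecidableEq ι] [Fintype κ] [DecidableEq κ] [Fintype α]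
    (e : κ ↪ ι) (g : (κ → α) → ℝ) :
    (∑ t : ι → α, g fun k => t (e k)) * (Fintype.card α : ℝ) ^ Fintype.card κ =
      (Fintype.card α : ℝ) ^ Fintype.card ι * ∑ u, g u := by
  classical
  have h1 : ∑ t : ι → α, g (fun k => t (e k)) =
      ∑ y : ({i // i ∈ Set.range e} → α) × ({i // ¬ i ∈ Set.range e} → α),
        g (fun k => y.1 ⟨e k, ⟨k, rfl⟩⟩) := by
    refine Fintype.sum_equiv (Equiv.piEquivPiSubtypeProd (fun i => i ∈ Set.range e) fun _ => α)
      _ _ fun t => ?_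
    rfl
  have h2 : ∑ u : {i // i ∈ Set.range e} → α, g (fun k => u ⟨e k, ⟨k, rfl⟩⟩) = ∑ u, g u := by
    refine Fintype.sum_equiv (Equiv.arrowCongr (Equiv.ofInjective e e.injective).symm
      (Equiv.refl α)) _ _ fun u => ?_
    congr 1
  have h3 : Fintype.card {i // ¬ i ∈ Set.range e} + Fintype.card κ = Fintype.card ι := by
    have h4 := Fintype.card_subtype_compl (fun i => i ∈ Set.range e)
    have h5 : Fintype.card {i // i ∈ Set.range e} = Fintype.card κ :=
      (Fintype.card_congr (Equiv.ofInjective e e.injective)).symm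
    have h6 : Fintype.card κ ≤ Fintype.card ι := Fintype.card_le_of_embedding e
    rw [h5] at h4
    omega
  rw [h1, Fintype.sum_prod_type]
  simp only [sum_const, card_univ, nsmul_eq_mul]
  rw [← mul_sum, h2, Fintype.card_fun, ← h3, pow_add]
  push_cast
  ring

/-- The finite form for part of the primes. -/
theorem finite_part {P : Finset ℕ} {N Q : ℕ} (hQ : 2 ≤ Q) (hU : N / Q + 1 < Q) (hN : 2 * Q ≤ N)
    (hP : ∀ p ∈ P, p.Prime ∧ Q ≤ p ∧ p < 2 * Q) (a : (p : ℕ) → ZMod p) {D : Finset ℤ}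
    (hDne : D.Nonempty) (hD : ∀ s ∈ D, 0 ≤ s ∧ 2 * s < Q) {K : ℝ}
    (hK : ((D + D - (D + D)).card : ℝ) ≤ K * D.card) (M : ℕ) (hMP : M ≤ P.card)
    (hPD : (M : ℝ) ≤ 2 * D.card * (N / Q)) :
    ((univ.filter fun t : P → D =>
        ((cov P N a D t).card : ℝ) < M * (N / Q) / (384 * K)).card : ℝ) ≤
      Real.exp (-(M / (1179648 * K ^ 2))) * (D.card : ℝ) ^ P.card := by
  classical
  obtain ⟨P', hP'P, hP'M⟩ := exists_subset_card_eq hMP
  have hfin := finite (P := P') hQ hU hN (fun p hp => hP p (hP'P hp)) a hDne hD hK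
    (by rw [hP'M]; exact hPD)
  rw [hP'M] at hfin
  set e : P' ↪ P := ⟨fun p => ⟨p, hP'P p.2⟩, fun p q h =>
    Subtype.ext (congrArg (fun x : P => (x : ℕ)) h)⟩ with he
  have hr := restrict (α := D) e (fun u => if ((cov P' N a D u).card : ℝ) <
    M * (N / Q) / (384 * K) then (1 : ℝ) else 0)
  have hDpos : (0 : ℝ) < D.card := by exact_mod_cast hDne.card_pos
  have h1 : (∑ u : P' → D, if ((cov P' N a D u).card : ℝ) <
      M * (N / Q) / (384 * K) then (1 : ℝ) else 0) =
      ((univ.filter fun t : P' → D =>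
        ((cov P' N a D t).card : ℝ) < M * (N / Q) / (384 * K)).card : ℝ) := by
    rw [← sum_filter, sum_const, nsmul_eq_mul, mul_one]
  have h2 : ((univ.filter fun t : P → D =>
        ((cov P N a D t).card : ℝ) < M * (N / Q) / (384 * K)).card : ℝ) ≤
      ∑ t : P → D, (if ((cov P' N a D fun k => t (e k)).card : ℝ) <
      M * (N / Q) / (384 * K) then (1 : ℝ) else 0) := by
    rw [← sum_filter, sum_const, nsmul_eq_mul, mul_one]
    norm_cast
    refine card_le_card fun t ht => ?_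
    have ht' := (mem_filter.1 ht).2
    refine mem_filter.2 ⟨mem_univ _, ?_⟩
    have hsub : cov P' N a D (fun k => t (e k)) ⊆ cov P N a D t := by
      intro n hn
      obtain ⟨q, _, hq⟩ := mem_biUnion.1 hn
      exact mem_biUnion.2 ⟨e q, mem_univ _, hq⟩
    have h3 : ((cov P' N a D (fun k => t (e k))).card : ℝ) ≤ (cov P N a D t).card := by
      exact_mod_cast card_le_card hsub
    exact lt_of_le_of_lt h3 ht'
  have hcD : (Fintype.card D : ℝ) = D.card := by simp
  have hcP : Fintype.card P = P.card := by simp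
  have hcP' : Fintype.card P' = M := by simp [hP'M]
  rw [h1, hcD, hcP, hcP'] at hr
  have hM0 : (0 : ℝ) < (D.card : ℝ) ^ M := by positivity
  refine le_of_mul_le_mul_right ?_ hM0
  refine (mul_le_mul_of_nonneg_right h2 hM0.le).trans ?_
  rw [hr]
  calc (D.card : ℝ) ^ P.card * _ ≤ (D.card : ℝ) ^ P.card *
        (Real.exp (-(M / (1179648 * K ^ 2))) * (D.card : ℝ) ^ M) :=
        mul_le_mul_of_nonneg_left hfin (by positivity)
    _ = _ := by ring

theorem ev_pow {η : ℝ} (hη : 0 < η) (C : ℝ) : ∀ᶠ N : ℕ in atTop, C ≤ (N : ℝ) ^ η :=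
  ((tendsto_rpow_atTop hη).comp tendsto_natCast_atTop_atTop).eventually_ge_atTop C

/-- The general form. -/
theorem general (α : ℝ) (h12 : 1 / 2 < α) (h1 : α < 1) : ∀ᶠ N : ℕ in atTop,
    ∀ (P : Finset ℕ), (∀ p ∈ P, InRange α N p) → ∀ (a : (p : ℕ) → ZMod p) (K : ℝ) (D : Finset ℤ),
    D.Nonempty → (∀ s ∈ D, 0 ≤ s ∧ 2 * (s : ℝ) < (N : ℝ) ^ α) →
    ((D + D - (D + D)).card : ℝ) ≤ K * D.card →
    ((univ.filter fun t : P → D => (covered P N (perturb a t) : ℝ) <
        min (P.card : ℝ) (D.card * (N : ℝ) ^ (1 - α)) * (N : ℝ) ^ (1 - α) / (10 ^ 7 * K)).card : ℝ) ≤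
      Real.exp (-(min (P.card : ℝ) (D.card * (N : ℝ) ^ (1 - α)) / (10 ^ 7 * K ^ 2))) *
        (D.card : ℝ) ^ P.card := by
  classical
  filter_upwards [ev_pow (by linarith : 0 < α) 2, ev_pow (by linarith : 0 < 1 - α) 4,
    ev_pow (by linarith : 0 < 2 * α - 1) 3, eventually_ge_atTop 1] with N hNα hN1 hN2 hN P hP a K D
    hDne hD hK
  have hN0 : (0 : ℝ) < N := by exact_mod_cast hN
  set Q := ⌈(N : ℝ) ^ α⌉₊ with hQ
  have hQge : (N : ℝ) ^ α ≤ Q := Nat.le_ceil _
  have hQle : (Q : ℝ) < (N : ℝ) ^ α + 1 := Nat.ceil_lt_add_one (by positivity)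
  have hmul : (N : ℝ) ^ α * (N : ℝ) ^ (1 - α) = N := by
    rw [← Real.rpow_add hN0]
    simp
  have hmul2 : (N : ℝ) ^ (1 - α) * (N : ℝ) ^ (2 * α - 1) = (N : ℝ) ^ α := by
    rw [← Real.rpow_add hN0]
    congr 1
    ring
  have hQ0 : (0 : ℝ) < Q := by linarith
  have hQ2 : 2 ≤ Q := by exact_mod_cast hNα.trans hQge
  have hNQ : (N : ℝ) / Q ≤ (N : ℝ) ^ (1 - α) := by
    rw [div_le_iff₀ hQ0]
    calc (N : ℝ) = (N : ℝ) ^ (1 - α) * (N : ℝ) ^ α := by rw [mul_comm]; exact hmul.symm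
      _ ≤ _ := mul_le_mul_of_nonneg_left hQge (by positivity)
  have hNQ2 : (N : ℝ) ^ (1 - α) / 2 ≤ (N : ℝ) / Q := by
    rw [le_div_iff₀ hQ0]
    have : (Q : ℝ) ≤ 2 * (N : ℝ) ^ α := by linarith
    calc (N : ℝ) ^ (1 - α) / 2 * Q ≤ (N : ℝ) ^ (1 - α) / 2 * (2 * (N : ℝ) ^ α) :=
          mul_le_mul_of_nonneg_left this (by positivity)
      _ = (N : ℝ) ^ α * (N : ℝ) ^ (1 - α) := by ring
      _ = N := hmul
  have hU : N / Q + 1 < Q := by
    have e1 : ((N / Q : ℕ) : ℝ) ≤ (N : ℝ) ^ (1 - α) := Nat.cast_div_le.trans hNQ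
    have e2 : 3 * (N : ℝ) ^ (1 - α) ≤ (N : ℝ) ^ α := by
      rw [← hmul2, mul_comm]
      exact mul_le_mul_of_nonneg_left hN2 (by positivity)
    have e3 : (((N / Q : ℕ) + 1 : ℕ) : ℝ) < Q := by
      push_cast
      linarith
    exact_mod_cast e3
  have hN2Q : 2 * Q ≤ N := by
    have e1 : (2 * (Q : ℝ)) ≤ N := by
      have : (Q : ℝ) ≤ 2 * (N : ℝ) ^ α := by linarith
      nlinarith
    exact_mod_cast e1
  have hP' : ∀ p ∈ P, p.Prime ∧ Q ≤ p ∧ p < 2 * Q := by
    intro p hp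
    obtain ⟨h1, h2, h3⟩ := hP p hp
    refine ⟨h1, Nat.ceil_le.2 h2, ?_⟩
    have : (p : ℝ) < ((2 * Q : ℕ) : ℝ) := by
      push_cast
      linarith
    exact_mod_cast this
  have hD' : ∀ s ∈ D, 0 ≤ s ∧ 2 * s < (Q : ℤ) := by
    intro s hs
    obtain ⟨h1, h2⟩ := hD s hs
    refine ⟨h1, ?_⟩
    have : ((2 * s : ℤ) : ℝ) < ((Q : ℤ) : ℝ) := by
      push_cast
      linarith
    exact_mod_cast this
  have hDpos : (0 : ℝ) < D.card := by exact_mod_cast hDne.card_pos
  have hD1 : (1 : ℝ) ≤ D.card := by exact_mod_cast hDne.card_pos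
  have hKpos : 1 ≤ K := by
    obtain ⟨d, hd⟩ := hDne
    have h1 : D.card ≤ (D + D - (D + D)).card := by
      refine Finset.card_le_card_of_injOn (fun x => (x + d) - (d + d)) ?_ ?_
      · intro x hx
        exact mem_coe.2 (sub_mem_sub (add_mem_add (mem_coe.1 hx) hd) (add_mem_add hd hd))
      · intro x _ y _ hxy
        simpa using hxy
    have h2 : (D.card : ℝ) ≤ K * D.card := le_trans (by exact_mod_cast h1) hK
    by_contra hc
    push Not at hc
    nlinarith
  rcases P.eq_empty_or_nonempty with hPe | hPne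
  · have hm : min (P.card : ℝ) (D.card * (N : ℝ) ^ (1 - α)) = 0 := by
      rw [hPe]
      simp only [card_empty, Nat.cast_zero]
      exact min_eq_left (by positivity)
    rw [hm]
    have : (univ.filter fun t : P → D => (covered P N (perturb a t) : ℝ) <
        0 * (N : ℝ) ^ (1 - α) / (10 ^ 7 * K)) = ∅ := by
      refine filter_eq_empty_iff.2 fun t _ => ?_
      rw [zero_mul, zero_div, not_lt]
      positivity
    rw [this, card_empty]
    push_cast
    positivity
  set m := min (P.card : ℝ) (D.card * (N : ℝ) ^ (1 - α)) with hm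
  have hm1 : 1 ≤ m := by
    refine le_min (by exact_mod_cast hPne.card_pos) ?_
    nlinarith
  set M := ⌊m⌋₊ with hM
  have hMle : (M : ℝ) ≤ m := Nat.floor_le (by linarith)
  have hMge : m / 2 ≤ M := by
    have h2 := Nat.lt_floor_add_one m
    have h3 : (1 : ℝ) ≤ M := by
      exact_mod_cast (Nat.le_floor (by exact_mod_cast hm1) : 1 ≤ ⌊m⌋₊)
    rw [← hM] at h2
    linarith
  have hfin := finite_part hQ2 hU hN2Q hP' a hDne hD' hK M
    (by exact_mod_cast hMle.trans (min_le_left _ _))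
    (by
      calc (M : ℝ) ≤ D.card * (N : ℝ) ^ (1 - α) := hMle.trans (min_le_right _ _)
        _ = 2 * D.card * ((N : ℝ) ^ (1 - α) / 2) := by ring
        _ ≤ _ := mul_le_mul_of_nonneg_left hNQ2 (by positivity))
  refine le_trans ?_ (hfin.trans ?_)
  · refine Nat.cast_le.2 (card_le_card fun t ht => ?_)
    have h1 := (mem_filter.1 ht).2
    refine mem_filter.2 ⟨mem_univ _, ?_⟩
    rw [cov_card]
    refine lt_of_lt_of_le h1 ?_
    rw [div_le_div_iff₀ (by positivity) (by positivity)]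
    have e1 : m * (N : ℝ) ^ (1 - α) ≤ 4 * (M * (N / Q)) := by
      have : m / 2 * ((N : ℝ) ^ (1 - α) / 2) ≤ M * (N / Q) :=
        mul_le_mul hMge hNQ2 (by positivity) (by positivity)
      linarith
    have e2 : 0 ≤ (M : ℝ) * (N / Q) := by positivity
    have e3 : m * (N : ℝ) ^ (1 - α) * (384 * K) ≤ 4 * (M * (N / Q)) * (384 * K) :=
      mul_le_mul_of_nonneg_right e1 (by positivity)
    have e4 : 4 * ((M : ℝ) * (N / Q)) * (384 * K) ≤ M * (N / Q) * (10 ^ 7 * K) := by
      have : 0 ≤ (M : ℝ) * (N / Q) * K := by positivity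
      nlinarith
    exact e3.trans e4
  · refine mul_le_mul_of_nonneg_right (Real.exp_le_exp.2 (neg_le_neg ?_)) (by positivity)
    rw [div_le_div_iff₀ (by positivity) (by positivity)]
    have : 0 ≤ K ^ 2 := by positivity
    nlinarith

end Pool.Agent.V11298.CR
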