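import Mathlib
import Pool.Agent.V11298.CR.Alp

/-!
Random perturbations of a choice of residue classes: perturbations in an interval.
-/

set_option autoImplicit false

open Finset Filter Topology
open scoped Pointwise
open Pool.Agent.H170R2.PC

namespace Pool.Agent.V11298.CR

theorem primes_ge : ∀ᶠ x : ℝ in atTop, ∀ D : Finset ℕ,
    (∀ p : ℕ, p.Prime → x ≤ p → (p : ℝ) < 2 * x → p ∈ D) →
    0.7 * x ≤ (D.card + 1) * Real.log (2 * x) := by
  have ht := Pool.Agent.Helper923.PNT.theta_div_tendsto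
  have h1 : ∀ᶠ x : ℝ in atTop, Chebyshev.theta x ≤ 1.1 * x := by
    filter_upwards [ht.eventually (gt_mem_nhds (show (1 : ℝ) < 1.1 by norm_num)),
      eventually_gt_atTop 0] with x hx hx0
    exact ((div_lt_iff₀ hx0).mp hx).le
  have h2 : ∀ᶠ x : ℝ in atTop, 0.9 * x ≤ Chebyshev.theta x := by
    filter_upwards [ht.eventually (lt_mem_nhds (show (0.9 : ℝ) < 1 by norm_num)),
      eventually_gt_atTop 0] with x hx hx0
    exact ((lt_div_iff₀ hx0).mp hx).le
  have h2' : ∀ᶠ x : ℝ in atTop, 0.9 * (2 * x) ≤ Chebyshev.theta (2 * x) :=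
    (tendsto_id.const_mul_atTop (by norm_num : (0 : ℝ) < 2)).eventually h2
  filter_upwards [h1, h2', eventually_ge_atTop (2 : ℝ)] with x h1 h2 hx D hD
  have hT : 0.7 * x ≤ Chebyshev.theta (2 * x) - Chebyshev.theta x := by linarith
  have hfl : ⌊x⌋₊ ≤ ⌊2 * x⌋₊ := Nat.floor_le_floor (by linarith)
  have hTe : Chebyshev.theta (2 * x) - Chebyshev.theta x
      = ∑ p ∈ (Ioc ⌊x⌋₊ ⌊2 * x⌋₊).filter Nat.Prime, Real.log p := by
    unfold Chebyshev.theta
    rw [sub_eq_iff_eq_add, sum_filter, sum_filter, sum_filter, add_comm,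
      sum_Ioc_consecutive _ (Nat.zero_le _) hfl]
  have hcard : ((Ioc ⌊x⌋₊ ⌊2 * x⌋₊).filter Nat.Prime).card ≤ D.card + 1 := by
    refine (card_le_card (t := insert ⌊2 * x⌋₊ D) ?_).trans (card_insert_le _ _)
    intro p hp
    rw [mem_filter, mem_Ioc] at hp
    rw [mem_insert]
    by_cases hp2 : (p : ℝ) < 2 * x
    · right
      refine hD p hp.2 ?_ hp2
      exact (Nat.lt_of_floor_lt hp.1.1).le
    · left
      refine le_antisymm hp.1.2 ?_
      have : (⌊2 * x⌋₊ : ℝ) ≤ p := (Nat.floor_le (by linarith)).trans (not_lt.mp hp2)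
      exact_mod_cast this
  have hlog : ∀ p ∈ (Ioc ⌊x⌋₊ ⌊2 * x⌋₊).filter Nat.Prime, Real.log p ≤ Real.log (2 * x) := by
    intro p hp
    rw [mem_filter, mem_Ioc] at hp
    refine Real.log_le_log (by exact_mod_cast hp.2.pos) ?_
    exact (Nat.le_floor_iff (by linarith)).mp hp.1.2
  have hT2 : Chebyshev.theta (2 * x) - Chebyshev.theta x ≤ (D.card + 1) * Real.log (2 * x) := by
    rw [hTe]
    refine (sum_le_card_nsmul _ _ _ hlog).trans ?_
    rw [nsmul_eq_mul]
    refine mul_le_mul_of_nonneg_right ?_ (Real.log_nonneg (by linarith))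
    exact_mod_cast hcard
  exact hT.trans hT2

theorem card_PD {α : ℝ} (hα : 0 < α) (hα1 : α < 1) : ∀ᶠ N : ℕ in atTop,
    (N : ℝ) ^ α / Real.log N / 2 ≤ ((PD α N).card : ℝ) := by
  have hpr := ((tendsto_rpow_atTop hα).comp tendsto_natCast_atTop_atTop).eventually primes_ge
  have hl := ((isLittleO_log_rpow_atTop hα).comp_tendsto
    (tendsto_natCast_atTop_atTop (R := ℝ))).bound (show (0 : ℝ) < 0.2 by norm_num)
  filter_upwards [hpr, hl, ev_pow hα 1, ev_pow (by linarith : 0 < 1 - α) 2,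
    eventually_ge_atTop 3] with N hN hl hNα hN1 hN3
  have hN0 : (0 : ℝ) < N := by exact_mod_cast (by omega : 0 < N)
  have hN3' : (3 : ℝ) ≤ N := by exact_mod_cast hN3
  have hlog : 0 < Real.log N := Real.log_pos (by linarith)
  have hmul : (N : ℝ) ^ α * (N : ℝ) ^ (1 - α) = N := by
    rw [← Real.rpow_add hN0]
    simp
  simp only [Function.comp] at hN hl
  have h1 := hN (PD α N) fun p hp h1 h2 => mem_PD.mpr ⟨hp, h1, h2⟩
  have h2 : Real.log (2 * (N : ℝ) ^ α) ≤ Real.log N := by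
    refine Real.log_le_log (by positivity) ?_
    nlinarith
  have h3 : 0.7 * (N : ℝ) ^ α ≤ ((PD α N).card + 1) * Real.log N :=
    h1.trans (mul_le_mul_of_nonneg_left h2 (by positivity))
  have h4 : Real.log N ≤ 0.2 * (N : ℝ) ^ α := by
    rw [Real.norm_of_nonneg hlog.le, Real.norm_of_nonneg (by positivity)] at hl
    exact hl
  rw [div_div, div_le_iff₀ (by positivity)]
  linarith

theorem interval_K {T : ℕ} : ((Ico (0 : ℤ) T + Ico (0 : ℤ) T -
    (Ico (0 : ℤ) T + Ico (0 : ℤ) T)).card : ℝ) ≤ 4 * (Ico (0 : ℤ) T).card := by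
  have h : Ico (0 : ℤ) T + Ico (0 : ℤ) T - (Ico (0 : ℤ) T + Ico (0 : ℤ) T) ⊆
      Ico (-(2 * (T : ℤ))) (2 * T) := by
    intro e he
    obtain ⟨x, hx, y, hy, rfl⟩ := mem_sub.1 he
    obtain ⟨x1, h1, x2, h2, rfl⟩ := mem_add.1 hx
    obtain ⟨y1, h3, y2, h4, rfl⟩ := mem_add.1 hy
    rw [mem_Ico] at *
    constructor <;> omega
  have h2 := card_le_card h
  rw [Int.card_Ico] at h2
  have h3 : (Ico (0 : ℤ) T).card = T := by simp
  rw [h3]
  have h4 : ((2 * (T : ℤ) - -(2 * (T : ℤ))).toNat : ℝ) = 4 * T := by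
    have : (2 * (T : ℤ) - -(2 * (T : ℤ))).toNat = 4 * T := by omega
    rw [this]
    push_cast
    ring
  calc _ ≤ ((2 * (T : ℤ) - -(2 * (T : ℤ))).toNat : ℝ) := by exact_mod_cast h2
    _ = _ := h4

theorem coveredCount_eq' {α : ℝ} {N : ℕ} (a : (p : ℕ) → ZMod p) :
    coveredCount α N a = covered (PD α N) N a := by
  rw [coveredCount_eq, covered]
  congr 1

theorem interval (α : ℝ) (h12 : 1 / 2 < α) (h1 : α < 1) : ∀ᶠ N : ℕ in atTop,
    ∀ (T : ℕ), 1 ≤ T → 2 * (T : ℝ) ≤ (N : ℝ) ^ α → ∀ (a : (p : ℕ) → ZMod p),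
    ((univ.filter fun t : PD α N → Ico (0 : ℤ) T => (coveredCount α N (perturb a t) : ℝ) <
        min (N / Real.log N) (T * (N : ℝ) ^ (2 - 2 * α)) / 10 ^ 8).card : ℝ) ≤
      Real.exp (-(min ((N : ℝ) ^ α / Real.log N) (T * (N : ℝ) ^ (1 - α)) / 10 ^ 9)) *
        (T : ℝ) ^ (PD α N).card := by
  classical
  filter_upwards [general α h12 h1, card_PD (by linarith : 0 < α) h1,
    eventually_ge_atTop 3] with N hgen hPD hN3 T hT hTN a
  have hN0 : (0 : ℝ) < N := by exact_mod_cast (by omega : 0 < N)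
  have hN3' : (3 : ℝ) ≤ N := by exact_mod_cast hN3
  have hlog : 0 < Real.log N := Real.log_pos (by linarith)
  have hT0 : (0 : ℝ) < T := by exact_mod_cast hT
  have hcard : (Ico (0 : ℤ) T).card = T := by simp
  have hcard' : ((Ico (0 : ℤ) T).card : ℝ) = T := by rw [hcard]
  have hg := hgen (PD α N) (fun p hp => mem_PD.1 hp) a 4 (Ico (0 : ℤ) T)
    (by rw [← card_pos, hcard]; exact hT)
    (by
      intro s hs
      rw [mem_Ico] at hs
      refine ⟨hs.1, ?_⟩
      have : (s : ℝ) < T := by exact_mod_cast hs.2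
      linarith)
    interval_K
  rw [hcard'] at hg
  have hmul : (N : ℝ) ^ α * (N : ℝ) ^ (1 - α) = N := by
    rw [← Real.rpow_add hN0]
    simp
  have hmul2 : (N : ℝ) ^ (1 - α) * (N : ℝ) ^ (1 - α) = (N : ℝ) ^ (2 - 2 * α) := by
    rw [← Real.rpow_add hN0]
    congr 1
    ring
  set m := min ((PD α N).card : ℝ) (T * (N : ℝ) ^ (1 - α)) with hm
  set m0 := min ((N : ℝ) ^ α / Real.log N) (T * (N : ℝ) ^ (1 - α)) with hm0
  have hm0pos : 0 ≤ m0 := le_min (by positivity) (by positivity)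
  have hmm : m0 / 2 ≤ m := by
    refine le_min ?_ ?_
    · calc m0 / 2 ≤ (N : ℝ) ^ α / Real.log N / 2 :=
          div_le_div_of_nonneg_right (min_le_left _ _) (by norm_num)
        _ ≤ _ := hPD
    · have : m0 ≤ T * (N : ℝ) ^ (1 - α) := min_le_right _ _
      linarith
  have hmin : min (N / Real.log N) (T * (N : ℝ) ^ (2 - 2 * α)) = m0 * (N : ℝ) ^ (1 - α) := by
    rw [hm0, min_mul_of_nonneg _ _ (by positivity)]
    congr 1
    · rw [div_mul_eq_mul_div, hmul]
    · rw [mul_assoc, hmul2]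
  refine le_trans ?_ (hg.trans ?_)
  · refine Nat.cast_le.2 (card_le_card fun t ht => ?_)
    have h1 := (mem_filter.1 ht).2
    refine mem_filter.2 ⟨mem_univ _, ?_⟩
    rw [coveredCount_eq', hmin] at h1
    refine lt_of_lt_of_le h1 ?_
    have h2 : m0 / 2 * (N : ℝ) ^ (1 - α) ≤ m * (N : ℝ) ^ (1 - α) :=
      mul_le_mul_of_nonneg_right hmm (by positivity)
    have h3 : 0 ≤ m0 * (N : ℝ) ^ (1 - α) := by positivity
    rw [div_le_div_iff₀ (by positivity) (by positivity)]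
    linarith
  · refine mul_le_mul_of_nonneg_right (Real.exp_le_exp.2 (neg_le_neg ?_)) (by positivity)
    rw [div_le_div_iff₀ (by positivity) (by positivity)]
    linarith

end Pool.Agent.V11298.CR
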